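import Pool.Agent.Q170.CF.Main

/-!
# `Ham_c(M)` is not always `C⁰`-closed in `Symp_{c,0}(M)`

There are a connected open subset `M` of `ℝ⁶`, a symplectic form `Ω` on `M`, and an element `ψ` of
`Symp_{c,0}(M, Ω)` which is not in `Ham_c(M, Ω)` but is a uniform limit (even with all derivatives)
of elements of `Ham_c(M, Ω)` supported in one compact subset of `M`.

`M` is a magnetic cotangent bundle of `ℝ³` minus two discs, with one point `p` removed; the fluxes
of the two discs are rationally independent. Loops of symplectomorphisms obtained as commutators of
the rotation with a translation of the fixed points of the rotation give the group generated by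
these two fluxes as a subgroup of the flux group of `M`. On the other hand, only countably many
maps of a flow `ψ_s` with flux `s` at the end `p` are Hamiltonian.
-/

set_option autoImplicit false

open Set Filter Topology
open scoped ContDiff

namespace Pool.Agent.Results.MP_e3d95b_gt.NoncompactCounterexample

open Q170.CF

/-- There are a symplectic form `Ω` on a connected open subset `M` of `ℝ⁶` and an element
`ψ` of `Symp_{c,0}(M, Ω)` outside `Ham_c(M, Ω)` which is a uniform limit, together with all its
derivatives, of elements of `Ham_c(M, Ω)` supported in one compact subset of `M`. -/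
theorem result : ∃ (M : Set R6) (Ω : R6 → R6 →L[ℝ] R6 →L[ℝ] ℝ),
    SymplecticOn M Ω ∧ IsConnected M ∧
      ∃ ψ : Equiv.Perm R6, ψ ∈ SympC0 M Ω ∧ ψ ∉ HamC M Ω ∧ IsLimit M (HamC M Ω) ψ :=
  ⟨MM, Om, main⟩

end Pool.Agent.Results.MP_e3d95b_gt.NoncompactCounterexample
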